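import Pool.Agent.Helper65.NW.Goals2

/-!
# Networks of processors: circuits, the bounds (packet NW-CWTH)
-/

namespace Pool.Agent.Helper41.NW

open Pool.Agent.Helper65.LinSpace Pool.Agent.Helper78.Mpc Pool.Agent.Helper28.Ram
open Pool.Agent.Helper65.HC Pool.Agent.Helper65.NW
open Pool.Agent.Helper81.Sus2 (Decomp)

/-! ### Numbers -/

theorem sq_le (k : ℕ) : (k + 1) ^ 2 ≤ 4 * 2 ^ k := by
  induction k with
  | zero => norm_num
  | succ k ih =>
    rcases Nat.lt_or_ge k 2 with h | h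
    · interval_cases k <;> norm_num
    · rw [pow_succ 2 k]
      nlinarith

theorem cube_le (k : ℕ) : (k + 1) ^ 3 ≤ 8 * 2 ^ k := by
  induction k with
  | zero => norm_num
  | succ k ih =>
    rcases Nat.lt_or_ge k 4 with h | h
    · interval_cases k <;> norm_num
    · rw [pow_succ 2 k]
      have h1 : (k + 1 + 1) ^ 3 ≤ 2 * (k + 1) ^ 3 := by
        obtain ⟨j, rfl⟩ := Nat.exists_eq_add_of_le h
        ring_nf
        nlinarith [Nat.zero_le j, Nat.zero_le (j ^ 2), Nat.zero_le (j ^ 3)]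
      nlinarith

/-- The choice of `B` and the inequalities. -/
theorem numeric (n s a x : ℕ) (C : ℝ) (hs : 1 ≤ s)
    (h1 : (x : ℝ) * s * ((Nat.log 2 n : ℝ) + 1) ^ 3 ≤ C * ((n : ℝ) + 1) ^ 2)
    (h2 : (s : ℝ) * ((Nat.log 2 n : ℝ) + 1) ^ 2 ≤ C * ((n : ℝ) + 1))
    (h3 : (a : ℝ) * ((Nat.log 2 n : ℝ) + 1) ^ 2 ≤ C * ((n : ℝ) + 1)) :
    ∃ B : ℕ, 0 < B ∧
      ((B + 1 : ℕ) : ℝ) * (s + 3 : ℕ) * ((Nat.log 2 n : ℝ) + 1) *
        ((Nat.log 2 (Nat.log 2 n + 1) : ℝ) + 1) ≤ (16 * |C| + 128) * ((n : ℝ) + 1) ∧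
      ((2 * x + 2 : ℕ) : ℝ) * ((Nat.log 2 n : ℝ) + 1) *
        ((Nat.log 2 (Nat.log 2 n + 1) : ℝ) + 1) ≤ (16 * |C| + 128) * ((n : ℝ) + 1) * B ∧
      (((s + 3 : ℕ) : ℝ) + (6 * a + 2 * (Nat.log 2 n + 1) + 9 : ℕ)) *
        ((Nat.log 2 n : ℝ) + 1) ^ 2 ≤ (16 * |C| + 128) * ((n : ℝ) + 1) := by
  have hN : (1 : ℝ) ≤ (n : ℝ) + 1 := by
    have : (0 : ℝ) ≤ (n : ℝ) := Nat.cast_nonneg n
    linarith
  have hsr : (1 : ℝ) ≤ s := by exact_mod_cast hs
  have hl1 : (1 : ℝ) ≤ (Nat.log 2 n : ℝ) + 1 := by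
    have : (0 : ℝ) ≤ (Nat.log 2 n : ℝ) := Nat.cast_nonneg _
    linarith
  have hm1 : (1 : ℝ) ≤ (Nat.log 2 (Nat.log 2 n + 1) : ℝ) + 1 := by
    have : (0 : ℝ) ≤ (Nat.log 2 (Nat.log 2 n + 1) : ℝ) := Nat.cast_nonneg _
    linarith
  -- `l' ^ 2 ≤ 4 l`, `l' ≤ l`, `l ≤ N'`, `l ^ 3 ≤ 8 N'`
  have hm2 : ((Nat.log 2 (Nat.log 2 n + 1) : ℝ) + 1) ^ 2 ≤ 4 * ((Nat.log 2 n : ℝ) + 1) := by
    have e1 := sq_le (Nat.log 2 (Nat.log 2 n + 1))
    have e2 := Nat.pow_log_le_self 2 (x := Nat.log 2 n + 1) (by omega)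
    have e3 : (Nat.log 2 (Nat.log 2 n + 1) + 1) ^ 2 ≤ 4 * (Nat.log 2 n + 1) := e1.trans (by omega)
    exact_mod_cast e3
  have hml : (Nat.log 2 (Nat.log 2 n + 1) : ℝ) + 1 ≤ (Nat.log 2 n : ℝ) + 1 := by
    have e1 : Nat.log 2 (Nat.log 2 n + 1) < Nat.log 2 n + 1 := Nat.log_lt_self 2 (by omega)
    have e2 : Nat.log 2 (Nat.log 2 n + 1) ≤ Nat.log 2 n := by omega
    have e3 : (Nat.log 2 (Nat.log 2 n + 1) : ℝ) ≤ (Nat.log 2 n : ℝ) := by exact_mod_cast e2
    linarith
  have hpow : 2 ^ Nat.log 2 n ≤ n + 1 := by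
    rcases Nat.eq_zero_or_pos n with h | h
    · subst h
      simp
    · exact (Nat.pow_log_le_self 2 h.ne').trans (Nat.le_succ n)
  have hlN : (Nat.log 2 n : ℝ) + 1 ≤ (n : ℝ) + 1 := by
    have e1 : Nat.log 2 n ≤ n := Nat.log_le_self 2 n
    have e2 : (Nat.log 2 n : ℝ) ≤ (n : ℝ) := by exact_mod_cast e1
    linarith
  have hl3 : ((Nat.log 2 n : ℝ) + 1) ^ 3 ≤ 8 * ((n : ℝ) + 1) := by
    have e1 := cube_le (Nat.log 2 n)
    have e3 : (Nat.log 2 n + 1) ^ 3 ≤ 8 * (n + 1) := e1.trans (by omega)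
    exact_mod_cast e3
  have hC : C ≤ |C| := le_abs_self C
  have hC0 : 0 < C := by
    have e1 : (1 : ℝ) ≤ (s : ℝ) * ((Nat.log 2 n : ℝ) + 1) ^ 2 := by
      have : (1 : ℝ) ≤ ((Nat.log 2 n : ℝ) + 1) ^ 2 := one_le_pow₀ hl1
      nlinarith
    by_contra h
    push Not at h
    nlinarith
  rw [abs_of_pos hC0]
  generalize hL : (Nat.log 2 n : ℝ) + 1 = L at *
  generalize hM : (Nat.log 2 (Nat.log 2 n + 1) : ℝ) + 1 = M at *
  generalize hNN : (n : ℝ) + 1 = N at *
  have hSs : ((s + 3 : ℕ) : ℝ) ≤ 4 * s := by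
    push_cast
    linarith
  have hS0 : (0 : ℝ) < ((s + 3 : ℕ) : ℝ) := by positivity
  generalize hS : ((s + 3 : ℕ) : ℝ) = S at *
  have hL0 : 0 < L := by linarith
  have hM0 : 0 < M := by linarith
  have hN0 : 0 < N := by linarith
  have hQ0 : 0 < S * L * M := by positivity
  -- `s' l l' ≤ 4 s l ^ 2 ≤ 4 C N'`
  have hQ : S * L * M ≤ 4 * C * N := by
    calc S * L * M ≤ (4 * s) * L * L := by gcongr
      _ = 4 * (s * L ^ 2) := by ring
      _ ≤ 4 * (C * N) := by gcongr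
      _ = 4 * C * N := by ring
  have hB1 : 1 ≤ 4 * C * N / (S * L * M) := by
    rw [le_div_iff₀ hQ0]
    linarith
  refine ⟨⌊4 * C * N / (S * L * M)⌋₊, ?_, ?_, ?_, ?_⟩
  · exact Nat.floor_pos.2 hB1
  · have e1 : (⌊4 * C * N / (S * L * M)⌋₊ : ℝ) ≤ 4 * C * N / (S * L * M) :=
      Nat.floor_le (by linarith)
    have e2 : (⌊4 * C * N / (S * L * M)⌋₊ : ℝ) * (S * L * M) ≤ 4 * C * N := by
      rwa [le_div_iff₀ hQ0] at e1
    push_cast
    nlinarith
  · have e1 : 4 * C * N / (S * L * M) < ⌊4 * C * N / (S * L * M)⌋₊ + 1 := Nat.lt_floor_add_one _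
    have e2 : (1 : ℝ) ≤ ⌊4 * C * N / (S * L * M)⌋₊ := by
      exact_mod_cast Nat.floor_pos.2 hB1
    generalize hB : (⌊4 * C * N / (S * L * M)⌋₊ : ℝ) = B at *
    have e3 : 4 * C * N ≤ 2 * B * (S * L * M) := by
      rw [div_lt_iff₀ hQ0] at e1
      nlinarith
    -- `(2 x + 2) l l' * (s' l l') ≤ 64 C N' ^ 2`
    have e4 : ((2 * x + 2 : ℕ) : ℝ) * L * M * (S * L * M) ≤ 64 * C * N ^ 2 := by
      have f1 : ((2 * x + 2 : ℕ) : ℝ) * L * M * (S * L * M) = 2 * (x + 1) * S * L ^ 2 * M ^ 2 := by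
        push_cast
        ring
      rw [f1]
      calc 2 * ((x : ℝ) + 1) * S * L ^ 2 * M ^ 2 ≤ 2 * (x + 1) * (4 * s) * L ^ 2 * (4 * L) := by
            gcongr
        _ = 32 * (x * s * L ^ 3) + 32 * (s * L ^ 2) * L := by ring
        _ ≤ 32 * (C * N ^ 2) + 32 * (C * N) * N := by gcongr
        _ = 64 * C * N ^ 2 := by ring
    -- multiply by `s' l l'`
    have e5 : ((2 * x + 2 : ℕ) : ℝ) * L * M * (S * L * M) ≤ (16 * C + 128) * N * B * (S * L * M) := by
      have f1 : 64 * C * N ^ 2 = 16 * N * (4 * C * N) := by ring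
      have f2 : 16 * N * (4 * C * N) ≤ 16 * N * (2 * B * (S * L * M)) := by gcongr
      have f3 : 0 ≤ N * B * (S * L * M) := by positivity
      nlinarith
    exact le_of_mul_le_mul_right e5 hQ0
  · have e1 : (((6 * a + 2 * (Nat.log 2 n + 1) + 9 : ℕ) : ℝ)) = 6 * a + 2 * L + 9 := by
      rw [← hL]
      push_cast
      ring
    rw [e1]
    have e2 : L ^ 2 ≤ L ^ 3 := pow_le_pow_right₀ hl1 (by norm_num)
    calc (S + (6 * a + 2 * L + 9)) * L ^ 2 = S * L ^ 2 + 6 * (a * L ^ 2) + 2 * L ^ 3 + 9 * L ^ 2 := by ring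
      _ ≤ (4 * s) * L ^ 2 + 6 * (C * N) + 2 * (8 * N) + 9 * (8 * N) := by
        gcongr
        exact e2.trans hl3
      _ = 4 * (s * L ^ 2) + 6 * (C * N) + 88 * N := by ring
      _ ≤ 4 * (C * N) + 6 * (C * N) + 88 * N := by gcongr
      _ ≤ (16 * C + 128) * N := by nlinarith [mul_pos hC0 hN0]

/-! ### Words -/

theorem view_eq (N : Net) (n : ℕ) (p : List Bool) (t : ℕ) (v : List Bool → List Bool) (z : List Bool)
    (i : ℕ) : ∃ u, N.view n p t v z i = hd n t p z ++ u := by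
  induction i with
  | zero => exact ⟨[], (List.append_nil _).symm⟩
  | succ i ih =>
    obtain ⟨u, hu⟩ := ih
    exact ⟨u ++ sd (v (N.inp n p t z i)), by rw [Net.view, hu, List.append_assoc]⟩

theorem flg_head {v : List Bool} : (flg v).head? = some true ↔ v.head? = some true := by
  unfold flg
  cases v with
  | nil => simp
  | cons b v => cases b <;> simp

theorem cc_head {A : Circ} {w y : List Bool} {P τ i : ℕ} (h : (cc A w y P τ i).head? = some true) :
    A.AcceptsAt w y i := by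
  unfold cc at h
  split_ifs at h with h1 h2
  · simp at h
  · exact flg_head.1 h
  · split at h <;> simp at h

theorem cc_length {A : Circ} {w y : List Bool} {P τ i s : ℕ} (h : A.Fits w y P s) :
    (cc A w y P τ i).length ≤ s + 3 := by
  unfold cc
  split_ifs with h1 h2
  · simp
  · push Not at h1
    have := (h i h1.2.1).1
    unfold flg
    split_ifs <;> simp <;> omega
  · push Not at h1
    split
    · simp
    · rename_i h3
      have h4 : (w ++ y).length ≤ i := List.getElem?_eq_none_iff.1 h3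
      have := (h i h1.2.1).2 h4 _ h1.2.2
      simp only [List.length_append, List.length_cons, List.length_nil]
      omega

theorem cwth (hL : CLIN_stmt) (hV : CVAL_stmt) (hC : CCONE_stmt) (hS : CSHORT_stmt) : CWTH_stmt := by
  intro A
  obtain ⟨N, hN⟩ := hL.1 A
  refine ⟨N, ?_, ?_⟩
  · rintro w y ⟨p, τ, h⟩
    refine ⟨bval p, ?_⟩
    unfold Net.AcceptsAt at h
    rw [hV A N hN w y p p rfl τ] at h
    exact cc_head h
  · intro E
    obtain ⟨E', hE'⟩ := hL.2 E
    refine ⟨E', fun c C => ⟨16 * |C| + 128, fun w y hw => ?_⟩⟩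
    obtain ⟨r, s, a, x, hacc, hfit, hra, hint, h1, h2, h3⟩ := hw
    have hs : 1 ≤ s := by
      have e1 := (hfit r le_rfl).1
      have e2 : A.val w y r ≠ [] := by
        intro h
        unfold Circ.AcceptsAt at hacc
        rw [h] at hacc
        simp at hacc
      have e3 : 0 < (A.val w y r).length := List.length_pos_iff.2 e2
      omega
    obtain ⟨B, hB0, hB1, hB2, hB3⟩ := numeric w.length s a x C hs h1 h2 h3
    have hbr : bval r.bits = r := Pool.Agent.Helper31.TMS.bval_bits r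
    have hlr : r.bits.length ≤ a := length_bits hra
    refine ⟨r.bits, 2 * r + 2, s + 3, 6 * a + 2 * (Nat.log 2 w.length + 1) + 9, 2 * x + 2, B, B + 1,
      ?_, by omega, ?_, hB0, by omega, ?_, ?_, hB1, hB2, hB3⟩
    · -- acceptance
      unfold Net.AcceptsAt
      rw [hV A N hN w y r.bits r.bits rfl, hbr]
      have e1 : cc A w y r (2 * r + 2) r = flg (A.val w y r) := by
        unfold cc
        rw [if_neg (by omega), if_pos (by omega)]
      rw [e1]
      exact flg_head.2 hacc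
    · calc 2 * r + 2 ≤ 2 ^ (a + 1) := by rw [pow_succ]; omega
        _ < 2 ^ (6 * a + 2 * (Nat.log 2 w.length + 1) + 9) := Nat.pow_lt_pow_right (by norm_num) (by omega)
    · -- lengths and cones
      intro t ht z hz
      refine ⟨?_, ?_, ?_⟩
      · rw [hV A N hN w y r.bits z hz, hbr]
        exact cc_length hfit
      · obtain ⟨u, hu⟩ := view_eq N w.length r.bits t (N.val w y r.bits t) z N.deg
        rw [hu, hN.addr, cadr, hz_hd, hn_hd]
        have e1 : bval z < 2 ^ a := by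
          refine (bval_lt z).trans_le (Nat.pow_le_pow_right (by norm_num) ?_)
          omega
        have e2 : ∀ j, j ≤ bval z → j.bits.length ≤ 6 * a + 2 * (Nat.log 2 w.length + 1) + 9 := by
          intro j hj
          have := length_bits (i := j) (k := a) (by omega)
          omega
        split_ifs
        · exact e2 _ le_rfl
        · exact e2 _ (Nat.sub_le _ _)
      · intro k hk hkt
        exact (hC A N hN w.length r.bits k t z hkt hz).trans (by omega)
    · -- intervals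
      intro t t' htt ht' hsh
      have key : t / 2 ≤ min (t' / 2) r → min (t' / 2) r ≤ t / 2 + x := by
        intro h
        refine hint (t / 2) (min (t' / 2) r) h (by omega) fun u hu1 hu2 hu3 => ?_
        refine hsh (2 * u + 1) (by omega) (by omega) ?_
        refine hS A N hN E E' hE' w y r a _ (c * w.length) u (by omega) hu3 (by omega) ?_
        have e1 : w.length.bits.length ≤ Nat.log 2 w.length + 1 :=
          length_bits (Nat.lt_pow_succ_log_self (by norm_num) _)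
        have e2 : (2 * u + 1).bits.length ≤ a + 1 := length_bits (by rw [pow_succ]; omega)
        omega
      rcases Nat.lt_or_ge (min (t' / 2) r) (t / 2) with h | h
      · omega
      · have := key h
        omega

end Pool.Agent.Helper41.NW
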